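import Mathlib
import Pool.Agent.Lib.H86I.BoundaryNorms
import Pool.Agent.Lib.H86I.SigmaMax
import Pool.Agent.Lib.H86I.SingularSet

set_option autoImplicit false
open Matrix Module

/-!
# The largest singular values of the boundary maps of a finite simplicial complex decrease

For every finite abstract simplicial complex `K`, every orientation of its faces and every `k ≥ 1`
the largest singular value of the boundary map `∂_{k+1}` is at most the one of `∂_k`; equivalently
the largest eigenvalue of the `k`-th up-Laplacian is a non-increasing function of `k ≥ 0`.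
-/

namespace Pool.Agent.Results.MP_284e51_co.SingularValues

universe u

variable {V : Type u}

/-- The faces of the abstract simplicial complex `K` with `m` vertices, that is, of dimension
`m - 1`. (`PreAbstractSimplicialComplex V` is Mathlib's type of sets of nonempty finite subsets of
`V` that are closed under passing to nonempty subsets; the points of `V` need not all be
vertices.) -/
abbrev Face (K : PreAbstractSimplicialComplex V) (m : ℕ) : Type u :=
  {s : Finset V // s ∈ K ∧ s.card = m}

noncomputable instance instFintypeFace [Fintype V] (K : PreAbstractSimplicialComplex V) (m : ℕ) :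
    Fintype (Face K m) :=
  Fintype.ofFinite _

/-- The position of `v` in the increasing enumeration `v₀ < v₁ < ⋯` of `s ∋ v`. -/
def position [LinearOrder V] (s : Finset V) (v : V) : ℕ := (s.filter (fun w => w < v)).card

/-- The coefficient of the oriented face `t` in the boundary of the oriented face `s`: it is `0`
unless `t = s \ {v}` with `v ∈ s`. The orientations are given by a function `o` with values `± 1`:
the chosen orientation of a face `s = {v₀ < ⋯ < v_k}` is `o s` times `[v₀, …, v_k]`. Since
`∂ [v₀, …, v_k] = ∑ (-1)^i [v₀, …, v̂_i, …, v_k]`, the coefficient for `t = s \ {v_i}` is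
`o t * o s * (-1)^i`. -/
noncomputable def coeff [LinearOrder V] (o : Finset V → ℤˣ) (t s : Finset V) : ℝ :=
  ∑ v ∈ s, if t = s.erase v then (((o t * o s : ℤˣ) : ℤ) : ℝ) * (-1 : ℝ) ^ position s v else 0

/-- The matrix of the boundary map `∂_k : C_k → C_{k-1}`: rows are the faces with `k` vertices,
columns are the faces with `k + 1` vertices. -/
noncomputable def boundary [LinearOrder V] (K : PreAbstractSimplicialComplex V)
    (o : Finset V → ℤˣ) (k : ℕ) : Matrix (Face K k) (Face K (k + 1)) ℝ :=
  fun t s => coeff o t.1 s.1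

/-- `μ` is an eigenvalue of the square matrix `A`. -/
def IsEigenvalue {m : Type*} [Fintype m] (A : Matrix m m ℝ) (μ : ℝ) : Prop :=
  ∃ x : m → ℝ, x ≠ 0 ∧ A *ᵥ x = μ • x

/-- The largest singular value of a real matrix `A`: the largest square root of an eigenvalue of
`Aᵀ A` (the supremum of a finite set; it is `0` if `A` has no columns). -/
noncomputable def sigmaMax {m n : Type*} [Fintype m] [Fintype n] (A : Matrix m n ℝ) : ℝ :=
  sSup {σ : ℝ | ∃ μ : ℝ, IsEigenvalue (Aᵀ * A) μ ∧ σ = Real.sqrt μ}

/-- The up-Laplacian `L_k^up = ∂_{k+1} ∂_{k+1}ᵀ` on `C_k`. -/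
noncomputable def upLaplacian [Fintype V] [LinearOrder V] (K : PreAbstractSimplicialComplex V)
    (o : Finset V → ℤˣ) (k : ℕ) : Matrix (Face K (k + 1)) (Face K (k + 1)) ℝ :=
  boundary K o (k + 1) * (boundary K o (k + 1))ᵀ

/-- `σ_max(∂_{k+1}) ≤ σ_max(∂_k)` for all `k ≥ 1`, and for all `k ≥ 0` every eigenvalue of
`L_{k+1}^up` is at most some eigenvalue of `L_k^up`, for every finite simplicial complex and every
orientation of its faces. -/
theorem result [Fintype V] [LinearOrder V] (K : PreAbstractSimplicialComplex V)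
    (o : Finset V → ℤˣ) :
    (∀ k : ℕ, 1 ≤ k → sigmaMax (boundary K o (k + 1)) ≤ sigmaMax (boundary K o k)) ∧
    (∀ k : ℕ, ∀ μ : ℝ, IsEigenvalue (upLaplacian K o (k + 1)) μ →
      ∃ ν : ℝ, μ ≤ ν ∧ IsEigenvalue (upLaplacian K o k) ν) := by
  have hsig : ∀ k : ℕ, sigmaMax (boundary K o k) =
      (Matrix.toEuclideanLin (boundary K o k)).singularValues 0 :=
    fun k => Pool.Agent.Lib.H86I.sSup_eq (boundary K o k)
  have hmain : ∀ k : ℕ, 1 ≤ k → sigmaMax (boundary K o (k + 1)) ≤ sigmaMax (boundary K o k) := by
    intro k hk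
    rw [hsig, hsig]
    refine Pool.Agent.Lib.H86I.sv_le_sv (boundary K o k) (boundary K o (k + 1)) ?_
    intro c hc h y
    exact Pool.Agent.Lib.H86I.key' K o k hk c hc h y
  refine ⟨hmain, ?_⟩
  intro k μ hμ
  have hx := hμ
  obtain ⟨x, hx, -⟩ := hx
  have hμ' : End.HasEigenvalue (Matrix.toEuclideanLin
      (boundary K o (k + 2) * (boundary K o (k + 2))ᵀ)) μ :=
    (Pool.Agent.Lib.H86I.isEig_iff _ _).mp hμ
  have h1 := Pool.Agent.Lib.H86I.eigenvalue_le (boundary K o (k + 2)) μ hμ'
  rw [← hsig] at h1
  have h2 := hmain (k + 1) (by omega)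
  have h3 : sigmaMax (boundary K o (k + 2)) ^ 2 ≤ sigmaMax (boundary K o (k + 1)) ^ 2 := by
    refine pow_le_pow_left₀ ?_ h2 2
    rw [hsig]
    exact (Matrix.toEuclideanLin (boundary K o (k + 2))).singularValues_nonneg 0
  -- there is a face with `k + 1` vertices
  have hne : Nonempty (Face K (k + 1)) := by
    have : ∃ s : Face K (k + 2), True := by
      by_contra hcon
      push Not at hcon
      apply hx
      funext s
      exact (hcon s).elim
    obtain ⟨s, -⟩ := this
    have hs : s.1.Nonempty := by
      rw [← Finset.card_pos, s.2.2]; omega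
    obtain ⟨x, hx⟩ := hs
    have hc : (s.1.erase x).card = k + 1 := by
      rw [Finset.card_erase_of_mem hx, s.2.2]; rfl
    refine ⟨⟨s.1.erase x, (K.isRelLowerSet_faces s.2.1).2 (Finset.erase_subset _ _) ?_, hc⟩⟩
    rw [← Finset.card_pos, hc]; omega
  obtain ⟨ν, h4, h5⟩ := Pool.Agent.Lib.H86I.exists_eigenvalue (boundary K o (k + 1))
  rw [← hsig] at h4
  exact ⟨ν, (h1.trans h3).trans h4, (Pool.Agent.Lib.H86I.isEig_iff _ _).mpr h5⟩

end Pool.Agent.Results.MP_284e51_co.SingularValues
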